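import Pool.Agent.Helper70.SK.Stmts2
import Pool.Agent.Helper70.SK.Lib

set_option autoImplicit false

namespace Pool.Agent.Helper70.SK

open Finset Pool.Agent.Helper70.DK

open Classical in
theorem st_ENTP : ST_ENTP := by
  intro Ω α S P f F b0 D p hS hPS hp hpc hF hb0 hD
  have hn : (0 : ℝ) < S.card := by exact_mod_cast hS.card_pos
  have hentF : ent S f ≤ Real.log F.card := ent_card S f F hF
  have hl2 : 0 ≤ Real.log 2 := Real.log_nonneg (by norm_num)
  have hD0 : 0 ≤ D := by linarith
  obtain ⟨g, hg⟩ : ∃ g : Ω → Bool, g = fun ω => decide (ω ∈ P) := ⟨_, rfl⟩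
  have h1 : ent S f ≤ cent S f g + ent S g := by
    have h2 : ent S f ≤ ent S (fun ω => (f ω, g ω)) :=
      ent_le S _ _ (fun x _ y _ e => (Prod.ext_iff.1 e).1)
    unfold cent
    linarith
  have h2 : ent S g ≤ Real.log 2 := by
    have := ent_card S g (Finset.univ : Finset Bool) (fun _ _ => Finset.mem_univ _)
    simpa using this
  have h3 := st_E3 Ω α Bool S f g Finset.univ (fun _ _ => Finset.mem_univ _)
  rw [Fintype.sum_bool] at h3
  have f1 : fib S g true = P := by
    ext ω
    simp only [fib, Finset.mem_filter, hg, decide_eq_true_eq]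
    exact ⟨fun h => h.2, fun h => ⟨hPS h, h⟩⟩
  have f2 : fib S g false = S \ P := by
    ext ω
    simp only [fib, Finset.mem_filter, hg, decide_eq_false_iff_not, Finset.mem_sdiff]
  rw [f1, f2] at h3
  have hcard : ((S \ P).card : ℝ) = S.card - P.card := by
    rw [Finset.card_sdiff_of_subset hPS, Nat.cast_sub (Finset.card_le_card hPS)]
  have h4 : ent P f ≤ Real.log ((P.image f).card) :=
    ent_card P f (P.image f) (fun x hx => Finset.mem_image_of_mem f hx)
  have h5 : ent (S \ P) f ≤ b0 :=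
    (ent_card (S \ P) f F (fun x hx => hF x (Finset.mem_sdiff.1 hx).1)).trans hb0
  have h6 : cent S f g ≤ ((P.card : ℝ) / S.card) * Real.log ((P.image f).card) +
      ((S.card - P.card : ℝ) / S.card) * b0 := by
    rw [h3, hcard]
    have a1 : 0 ≤ (P.card : ℝ) / S.card := by positivity
    have a2 : 0 ≤ (S.card - P.card : ℝ) / S.card := by
      rw [← hcard]; positivity
    exact add_le_add (mul_le_mul_of_nonneg_left h4 a1) (mul_le_mul_of_nonneg_left h5 a2)
  obtain ⟨q, hq⟩ : ∃ q : ℝ, q = (P.card : ℝ) / S.card := ⟨_, rfl⟩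
  have hpq : p ≤ q := by rw [hq, le_div_iff₀ hn]; exact hpc
  have h7 : (S.card - P.card : ℝ) / S.card = 1 - q := by rw [hq]; field_simp
  rw [h7, ← hq] at h6
  obtain ⟨x, hx⟩ : ∃ x : ℝ, x = b0 - Real.log ((P.image f).card) := ⟨_, rfl⟩
  have h8 : q * x ≤ D + Real.log 2 := by rw [hx]; nlinarith
  have h9 : x ≤ (D + Real.log 2) / p := by
    rw [le_div_iff₀ hp]
    rcases le_total x 0 with h | h
    · nlinarith
    · nlinarith
  rw [hx] at h9
  linarith

end Pool.Agent.Helper70.SK
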