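import Pool.Agent.Helper70.SK.Stmts3

/-! Module PRU: a subtree with single sheets and controlled densities of digits. -/

set_option autoImplicit false

namespace Pool.Agent.Helper70.SK

open Finset Pool.Agent.Helper70.DK MeasureTheory

theorem pru_card (m B : ℕ) : (gr m B).card = B ^ m := by
  unfold gr
  rw [Fintype.card_piFinset]
  simp

theorem pru_le {m : ℕ} (B n : ℕ) (X0 : Finset (Fin m → ℤ)) (al : (Fin m → ℤ) → Fin m → ℤ) (r : ℕ) :
    ∀ s : St m, Zr B n X0 al r s ≤ (B : NNReal) ^ (m * r) := by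
  induction r with
  | zero => intro s; simp [Zr]
  | succ r ih =>
    intro s
    have h1 : Zr B n X0 al (r + 1) s =
      ∑ d ∈ gr m B, (Chd B n X0 al (n - (r + 1)) s d).sup (Zr B n X0 al r) := rfl
    rw [h1]
    calc ∑ d ∈ gr m B, (Chd B n X0 al (n - (r + 1)) s d).sup (Zr B n X0 al r)
        ≤ ∑ _d ∈ gr m B, (B : NNReal) ^ (m * r) :=
          Finset.sum_le_sum fun d _ => Finset.sup_le fun s' _ => ih s'
      _ = (B : NNReal) ^ (m * (r + 1)) := by
        rw [Finset.sum_const, pru_card, nsmul_eq_mul]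
        push_cast
        rw [← pow_add]
        congr 1
        ring

theorem pru_step (hTHR : ST_THR) {m : ℕ} (B n : ℕ) (X0 : Finset (Fin m → ℤ))
    (al : (Fin m → ℤ) → Fin m → ℤ) (hB : 2 ≤ B) (i r : ℕ) (hir : n = i + (r + 1)) (s : St m)
    (hZ : 0 < Zr B n X0 al (r + 1) s) :
    ∃ (A : Finset (Fin m → ℤ)) (ch : (Fin m → ℤ) → St m), A ⊆ gr m B ∧ A.Nonempty ∧ ∀ d ∈ A,
      ch d ∈ Stt B n X0 al (i + 1) ∧ 0 < Zr B n X0 al r (ch d) ∧
      (ch d).1 = (fun c => B * s.1 c + d c) ∧ cl B 1 (ch d).2 = s.2 ∧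
      (B : ℝ) ^ m * Real.exp (-(2 * (Real.log ((B : ℝ) ^ (m * (r + 1)) / Zr B n X0 al (r + 1) s) -
        Real.log ((B : ℝ) ^ (m * r) / Zr B n X0 al r (ch d))) + 4)) ≤ (A.card : ℝ) := by
  classical
  have hi : n - (r + 1) = i := by omega
  have hB0 : (0 : ℝ) < B := by
    have : 0 < B := by omega
    exact_mod_cast this
  have hZ0 : (0 : ℝ) < Zr B n X0 al (r + 1) s := by exact_mod_cast hZ
  obtain ⟨W, hW⟩ : ∃ W : (Fin m → ℤ) → NNReal,
    W = fun d => (Chd B n X0 al i s d).sup (Zr B n X0 al r) := ⟨_, rfl⟩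
  have hWd : ∀ d, W d = (Chd B n X0 al i s d).sup (Zr B n X0 al r) := by
    intro d
    rw [hW]
  have hsum : Zr B n X0 al (r + 1) s = ∑ d ∈ gr m B, W d := by
    have h1 : Zr B n X0 al (r + 1) s =
      ∑ d ∈ gr m B, (Chd B n X0 al (n - (r + 1)) s d).sup (Zr B n X0 al r) := rfl
    rw [h1, hi, hW]
  obtain ⟨Z, hZdef⟩ : ∃ Z : ℝ, Z = (Zr B n X0 al (r + 1) s : ℝ) / (B : ℝ) ^ (m * (r + 1)) :=
    ⟨_, rfl⟩
  have hZpos : 0 < Z := by
    rw [hZdef]
    positivity
  have hcard : ((gr m B).card : ℝ) = (B : ℝ) ^ m := by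
    rw [pru_card]
    push_cast
    rfl
  have hne : (gr m B).Nonempty := by
    rw [← Finset.card_pos, pru_card]
    positivity
  obtain ⟨k, hk⟩ := hTHR (Fin m → ℤ) (gr m B) (fun d => (W d : ℝ) / (B : ℝ) ^ (m * r)) Z hne
    (by
      intro d _
      refine ⟨by positivity, ?_⟩
      rw [div_le_one (by positivity)]
      have h1 : W d ≤ (B : NNReal) ^ (m * r) := by
        rw [hWd]
        exact Finset.sup_le fun s' _ => pru_le B n X0 al r s'
      exact_mod_cast h1) hZpos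
    (by
      rw [← Finset.sum_div, hcard, hZdef, hsum]
      push_cast
      rw [div_mul_eq_mul_div, div_eq_div_iff (by positivity) (by positivity)]
      ring)
  obtain ⟨A, hA⟩ : ∃ A : Finset (Fin m → ℤ), A = (gr m B).filter
    (fun d => Real.exp (-(k : ℝ)) ≤ (W d : ℝ) / (B : ℝ) ^ (m * r)) := ⟨_, rfl⟩
  have hk' : (B : ℝ) ^ m * (Z ^ 2 * Real.exp (2 * k - 4)) ≤ (A.card : ℝ) := by
    rw [hA, ← hcard]
    exact hk
  have hAne : A.Nonempty := by
    rw [← Finset.card_pos]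
    have h1 : (0 : ℝ) < A.card := lt_of_lt_of_le (by positivity) hk'
    exact_mod_cast h1
  have hex : ∀ d : Fin m → ℤ, ∃ s' : St m, d ∈ A →
      s' ∈ Chd B n X0 al i s d ∧ W d = Zr B n X0 al r s' := by
    intro d
    by_cases hd : d ∈ A
    · have h1 : (Chd B n X0 al i s d).Nonempty := by
        rw [Finset.nonempty_iff_ne_empty]
        intro h2
        rw [hA, Finset.mem_filter] at hd
        have h3 := hd.2
        rw [hWd, h2, Finset.sup_empty] at h3
        have h4 : ((⊥ : NNReal) : ℝ) = 0 := by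
          rw [bot_eq_zero]
          rfl
        rw [h4, zero_div] at h3
        exact absurd h3 (not_le.2 (Real.exp_pos _))
      obtain ⟨s', hs', hs''⟩ := Finset.exists_mem_eq_sup (Chd B n X0 al i s d) h1
        (Zr B n X0 al r)
      exact ⟨s', fun _ => ⟨hs', by rw [hWd, hs'']⟩⟩
    · exact ⟨s, fun h => absurd h hd⟩
  choose ch hch using hex
  refine ⟨A, ch, by rw [hA]; exact Finset.filter_subset _ _, hAne, ?_⟩
  intro d hd
  obtain ⟨hmem, hWch⟩ := hch d hd
  unfold Chd at hmem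
  rw [Finset.mem_filter] at hmem
  have hwd : Real.exp (-(k : ℝ)) ≤ (W d : ℝ) / (B : ℝ) ^ (m * r) := by
    rw [hA, Finset.mem_filter] at hd
    exact hd.2
  have hwpos : 0 < (W d : ℝ) / (B : ℝ) ^ (m * r) := (Real.exp_pos _).trans_le hwd
  have hWpos : (0 : ℝ) < W d := by
    rcases lt_or_ge 0 ((W d : NNReal) : ℝ) with h | h
    · exact h
    · exfalso
      have h1 : (W d : ℝ) / (B : ℝ) ^ (m * r) ≤ 0 := div_nonpos_of_nonpos_of_nonneg h (by positivity)
      linarith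
  rw [hWch] at hWpos hwd
  refine ⟨hmem.1, by exact_mod_cast hWpos, hmem.2.1, hmem.2.2, ?_⟩
  refine le_trans ?_ hk'
  apply mul_le_mul_of_nonneg_left _ (by positivity)
  have h1 : Real.log ((B : ℝ) ^ (m * (r + 1)) / Zr B n X0 al (r + 1) s) = -Real.log Z := by
    rw [hZdef, ← Real.log_inv, inv_div]
  have h2 : Real.log ((B : ℝ) ^ (m * r) / Zr B n X0 al r (ch d)) ≤ k := by
    have h3 := Real.log_le_log (Real.exp_pos _) hwd
    rw [Real.log_exp] at h3
    have h4 : Real.log ((B : ℝ) ^ (m * r) / Zr B n X0 al r (ch d)) =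
        -Real.log ((Zr B n X0 al r (ch d) : ℝ) / (B : ℝ) ^ (m * r)) := by
      rw [← Real.log_inv, inv_div]
    rw [h4]
    linarith
  have h5 : Z ^ 2 * Real.exp (2 * k - 4) = Real.exp (2 * Real.log Z + (2 * k - 4)) := by
    have h6 : Real.exp (2 * Real.log Z) = Z ^ 2 := by
      rw [two_mul, Real.exp_add, Real.exp_log hZpos]
      ring
    rw [Real.exp_add, h6]
  rw [h5, h1]
  apply Real.exp_le_exp.2
  linarith

theorem st_PRU (hTHR : ST_THR) (hZJ : ST_ZJ) : ST_PRU := by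
  classical
  intro m B n C lam0 X0 al hB hC hlam0 hlam1 hX0 hcard hSt
  have hB0 : (0 : ℝ) < B := by
    have : 0 < B := by omega
    exact_mod_cast this
  have hC0 : 0 < C := by linarith
  obtain ⟨s0, hs0, hs0Z⟩ := hZJ m B n C lam0 X0 al hB hC hlam0 hlam1 hX0 hcard hSt
  have hs0pos : (0 : ℝ) < (Zr B n X0 al n s0 : ℝ) := lt_of_lt_of_le (by positivity) hs0Z
  have hex : ∀ (i : ℕ) (s : St m), ∃ (A : Finset (Fin m → ℤ)) (ch : (Fin m → ℤ) → St m),
      i < n → 0 < Zr B n X0 al (n - i) s → A ⊆ gr m B ∧ A.Nonempty ∧ ∀ d ∈ A,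
      ch d ∈ Stt B n X0 al (i + 1) ∧ 0 < Zr B n X0 al (n - (i + 1)) (ch d) ∧
      (ch d).1 = (fun c => B * s.1 c + d c) ∧ cl B 1 (ch d).2 = s.2 ∧
      (B : ℝ) ^ m * Real.exp (-(2 * (Real.log ((B : ℝ) ^ (m * (n - i)) /
        Zr B n X0 al (n - i) s) - Real.log ((B : ℝ) ^ (m * (n - (i + 1))) /
        Zr B n X0 al (n - (i + 1)) (ch d))) + 4)) ≤ (A.card : ℝ) := by
    intro i s
    by_cases h : i < n ∧ 0 < Zr B n X0 al (n - i) s
    · obtain ⟨r, hr⟩ : ∃ r, n = i + (r + 1) := ⟨n - i - 1, by omega⟩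
      have h1 : n - i = r + 1 := by omega
      have h2 : n - (i + 1) = r := by omega
      have hZ := h.2
      rw [h1] at hZ
      obtain ⟨A, ch, hA⟩ := pru_step hTHR B n X0 al hB i r hr s hZ
      refine ⟨A, ch, fun _ _ => ?_⟩
      rw [h1, h2]
      exact hA
    · exact ⟨∅, fun _ => s, fun h1 h2 => absurd ⟨h1, h2⟩ h⟩
  choose A ch hAch using hex
  refine ⟨fun i s => s ∈ Stt B n X0 al i ∧ 0 < Zr B n X0 al (n - i) s,
    fun i s => Real.log ((B : ℝ) ^ (m * (n - i)) / Zr B n X0 al (n - i) s), A, ch, s0, ?_, ?_,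
    ?_, ?_⟩
  · refine ⟨hs0, ?_⟩
    rw [Nat.sub_zero]
    exact_mod_cast hs0pos
  · simp only [Nat.sub_zero]
    have h1 : (n + 1 : ℝ) * Real.log (C / lam0) + Real.log (1 / lam0) =
        Real.log ((C / lam0) ^ (n + 1) * (1 / lam0)) := by
      rw [Real.log_mul (by positivity) (by positivity), Real.log_pow]
      push_cast
      ring
    rw [h1]
    apply Real.log_le_log (by positivity)
    rw [div_le_iff₀ hs0pos]
    have h2 : (C / lam0) ^ (n + 1) * (1 / lam0) *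
        (lam0 * (lam0 / C) ^ (n + 1) * (B : ℝ) ^ (m * n)) = (B : ℝ) ^ (m * n) := by
      have h3 : (C / lam0) ^ (n + 1) * (lam0 / C) ^ (n + 1) = 1 := by
        rw [← mul_pow]
        have h4 : C / lam0 * (lam0 / C) = 1 := by field_simp
        rw [h4, one_pow]
      calc (C / lam0) ^ (n + 1) * (1 / lam0) * (lam0 * (lam0 / C) ^ (n + 1) * (B : ℝ) ^ (m * n)) =
          ((C / lam0) ^ (n + 1) * (lam0 / C) ^ (n + 1)) * (1 / lam0 * lam0) * (B : ℝ) ^ (m * n) := by
            ring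
        _ = (B : ℝ) ^ (m * n) := by
          rw [h3, one_div, inv_mul_cancel₀ hlam0.ne', one_mul, one_mul]
    calc (B : ℝ) ^ (m * n) = (C / lam0) ^ (n + 1) * (1 / lam0) *
          (lam0 * (lam0 / C) ^ (n + 1) * (B : ℝ) ^ (m * n)) := h2.symm
      _ ≤ (C / lam0) ^ (n + 1) * (1 / lam0) * (Zr B n X0 al n s0 : ℝ) :=
        mul_le_mul_of_nonneg_left hs0Z (by positivity)
  · intro i _ s hG
    refine ⟨hG.1, ?_⟩
    apply Real.log_nonneg
    have h1 : (0 : ℝ) < Zr B n X0 al (n - i) s := by exact_mod_cast hG.2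
    rw [one_le_div h1]
    have h2 := pru_le B n X0 al (n - i) s
    exact_mod_cast h2
  · intro i hi s hG
    obtain ⟨h1, h2, h3⟩ := hAch i s hi hG.2
    refine ⟨h1, h2, fun d hd => ?_⟩
    obtain ⟨h4, h5, h6, h7, h8⟩ := h3 d hd
    exact ⟨⟨h4, h5⟩, h6, h7, h8⟩

end Pool.Agent.Helper70.SK
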