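import Pool.Agent.Helper70.SK.Stmts
import Pool.Agent.Helper70.SK.Lib
import Pool.Agent.Helper47.DK.E5
import Pool.Agent.Helper61.DK.FRM

set_option autoImplicit false

namespace Pool.Agent.Helper70.SK

open Finset Pool.Agent.Helper70.DK

noncomputable section

theorem s5p_floor (a s : ℤ) (hs : 0 < s) : ⌊(a : ℝ) / (s : ℝ)⌋ = a / s := by
  have hs' : (0 : ℝ) < s := by exact_mod_cast hs
  rw [Int.floor_eq_iff]
  constructor
  · rw [le_div_iff₀ hs']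
    exact_mod_cast Int.ediv_mul_le a hs.ne'
  · rw [div_lt_iff₀ hs']
    have h := Int.lt_ediv_add_one_mul_self a hs
    exact_mod_cast h

theorem s5p_unit {Ω α : Type} (S : Finset Ω) (f : Ω → α) : cent S f (fun _ => ()) = ent S f := by
  unfold cent
  rw [ent_const S (fun _ : Ω => ()) (fun _ _ _ _ => rfl), sub_zero]
  exact ent_congr S _ _ (fun x _ y _ => by simp)

theorem s5p_le {Ω α β : Type} (S : Finset Ω) (f : Ω → α) (g : Ω → β) (c : ℝ)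
    (h : cent S f (fun ω => (g ω, ())) ≤ c) : ent S f ≤ ent S g + c := by
  have h1 : ent S (fun ω => (g ω, ())) = ent S g := ent_congr S _ _ (fun x _ y _ => by simp)
  have h2 : ent S f ≤ ent S (fun ω => (f ω, (g ω, ()))) :=
    ent_le S _ _ (fun x _ y _ e => (Prod.ext_iff.1 e).1)
  have h3 : cent S f (fun ω => (g ω, ())) =
    ent S (fun ω => (f ω, (g ω, ()))) - ent S (fun ω => (g ω, ())) := rfl
  linarith

theorem s5p_sum (G : Finset ℕ) (sat bad : ℕ → Prop) [DecidablePred sat] [DecidablePred bad]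
    (a h2 : ℕ → ℝ) (q' e ε1 Λ c : ℝ)
    (hΛ : 0 ≤ Λ) (he : 0 ≤ e)
    (hsum : (q' - ε1) * Λ * G.card ≤ ∑ γ ∈ G, h2 γ)
    (hbad : ((G.filter bad).card : ℝ) ≤ ε1 * G.card)
    (hpt : ∀ γ ∈ G, h2 γ - q' * Λ + (if sat γ then (q' + 1) * Λ else e * Λ) - ε1 * Λ - c -
      (if bad γ then e * Λ else 0) ≤ a γ) :
    (e * G.card + (q' + 1 - e) * ((G.filter sat).card : ℝ)) * Λ - (2 * ε1 + e * ε1) * Λ * G.card -
      c * G.card ≤ ∑ γ ∈ G, a γ := by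
  have h1 := Finset.sum_le_sum hpt
  have e1 : ∑ γ ∈ G, (if sat γ then (q' + 1) * Λ else e * Λ) =
      (e * G.card + (q' + 1 - e) * ((G.filter sat).card : ℝ)) * Λ := by
    have : ∀ γ ∈ G, (if sat γ then (q' + 1) * Λ else e * Λ) =
        e * Λ + (if sat γ then (q' + 1 - e) * Λ else 0) := by
      intro γ _
      split_ifs <;> ring
    rw [Finset.sum_congr rfl this, Finset.sum_add_distrib, Finset.sum_const, ← Finset.sum_filter,
      Finset.sum_const, nsmul_eq_mul, nsmul_eq_mul]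
    ring
  have e2 : ∑ γ ∈ G, (if bad γ then e * Λ else 0) = ((G.filter bad).card : ℝ) * (e * Λ) := by
    rw [← Finset.sum_filter, Finset.sum_const, nsmul_eq_mul]
  have e3 : ∑ γ ∈ G, (h2 γ - q' * Λ + (if sat γ then (q' + 1) * Λ else e * Λ) - ε1 * Λ - c -
      (if bad γ then e * Λ else 0)) = ∑ γ ∈ G, h2 γ - G.card * (q' * Λ) +
      (e * G.card + (q' + 1 - e) * ((G.filter sat).card : ℝ)) * Λ - G.card * (ε1 * Λ) - G.card * c -
      ((G.filter bad).card : ℝ) * (e * Λ) := by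
    rw [Finset.sum_sub_distrib, Finset.sum_sub_distrib, Finset.sum_sub_distrib,
      Finset.sum_add_distrib, Finset.sum_sub_distrib, e1, e2]
    simp only [Finset.sum_const, nsmul_eq_mul]
  rw [e3] at h1
  have h2 : ((G.filter bad).card : ℝ) * (e * Λ) ≤ ε1 * G.card * (e * Λ) :=
    mul_le_mul_of_nonneg_right hbad (mul_nonneg he hΛ)
  nlinarith

/-! ### the system of smaller rank -/

/-- rounded products of the projections with the matrices `M` -/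
def s5p_sys {m q' : ℕ} (σ : Sy m (q' + 1)) (M : ℕ → Matrix (Fin q') (Fin (q' + 1)) ℝ) : Sy m q' :=
  { n := σ.n
    a1 := σ.a1
    a3 := σ.a3
    G := σ.G
    t := σ.t
    N := fun γ i c => ⌊∑ r, M γ i r * (σ.N γ r c : ℝ)⌋
    A := σ.A }

theorem s5p_frame {q' : ℕ} (M : Matrix (Fin q') (Fin (q' + 1)) ℝ) (hM : Frame M) (v : Fin q' → ℝ) :
    ∑ r, (∑ i, v i * M i r) ^ 2 = ∑ i, v i ^ 2 := by
  have h : ∀ i j, ∑ r, M i r * M j r = if i = j then 1 else 0 := by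
    intro i j
    have := congrFun (congrFun hM i) j
    rw [Matrix.mul_apply, Matrix.one_apply] at this
    simpa [Matrix.transpose_apply] using this
  calc ∑ r, (∑ i, v i * M i r) ^ 2 = ∑ r, ∑ i, ∑ j, (v i * M i r) * (v j * M j r) := by
        refine Finset.sum_congr rfl fun r _ => ?_
        rw [sq, Finset.sum_mul_sum]
    _ = ∑ i, ∑ j, ∑ r, (v i * M i r) * (v j * M j r) := by
        rw [Finset.sum_comm]
        refine Finset.sum_congr rfl fun i _ => ?_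
        rw [Finset.sum_comm]
    _ = ∑ i, ∑ j, v i * v j * (if i = j then 1 else 0) := by
        refine Finset.sum_congr rfl fun i _ => Finset.sum_congr rfl fun j _ => ?_
        rw [← h i j, Finset.mul_sum]
        refine Finset.sum_congr rfl fun r _ => ?_
        ring
    _ = ∑ i, v i ^ 2 := by
        refine Finset.sum_congr rfl fun i _ => ?_
        simp [sq]

theorem s5p_ok {m q' B : ℕ} {R κ D C : ℝ} (σ : Sy m (q' + 1))
    (M : ℕ → Matrix (Fin q') (Fin (q' + 1)) ℝ) (hM : ∀ γ, Frame (M γ)) (hB : 2 ≤ B)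
    (h : σ.Ok B R κ D C) (hbig : (m : ℝ) * q' ≤ κ / 4 * (B : ℝ) ^ (2 * σ.a1)) :
    (s5p_sys σ M).Ok B R (κ / 4) ((q' + 1) * D + 1) C := by
  have hB1 : (1 : ℝ) ≤ (B : ℝ) := by exact_mod_cast (by omega : 1 ≤ B)
  have hBa : (1 : ℝ) ≤ (B : ℝ) ^ σ.a1 := one_le_pow₀ hB1
  refine ⟨h.ne, h.n1, h.n3, h.tb, ?_, ?_, h.fr, h.st⟩
  · intro γ hγ i c
    show |((⌊∑ r, M γ i r * (σ.N γ r c : ℝ)⌋ : ℤ) : ℝ)| ≤ _
    have h1 : |∑ r, M γ i r * (σ.N γ r c : ℝ)| ≤ (q' + 1) * (D * (B : ℝ) ^ σ.a1) := by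
      calc |∑ r, M γ i r * (σ.N γ r c : ℝ)| ≤ ∑ r, |M γ i r * (σ.N γ r c : ℝ)| :=
            Finset.abs_sum_le_sum_abs _ _
        _ ≤ ∑ _r : Fin (q' + 1), D * (B : ℝ) ^ σ.a1 := by
            refine Finset.sum_le_sum fun r _ => ?_
            rw [abs_mul]
            have h2 := st_FRM.2.1 _ _ (M γ) (hM γ) i r
            have h3 := h.nb γ hγ r c
            calc |M γ i r| * |(σ.N γ r c : ℝ)| ≤ 1 * (D * (B : ℝ) ^ σ.a1) :=
                  mul_le_mul h2 h3 (abs_nonneg _) zero_le_one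
              _ = _ := one_mul _
        _ = (q' + 1) * (D * (B : ℝ) ^ σ.a1) := by simp
    have h2 := Int.floor_le (∑ r, M γ i r * (σ.N γ r c : ℝ))
    have h3 := Int.lt_floor_add_one (∑ r, M γ i r * (σ.N γ r c : ℝ))
    have h4 : |((⌊∑ r, M γ i r * (σ.N γ r c : ℝ)⌋ : ℤ) : ℝ)| ≤
        |∑ r, M γ i r * (σ.N γ r c : ℝ)| + 1 := by
      rw [abs_le] at *
      constructor
      · have := neg_abs_le (∑ r, M γ i r * (σ.N γ r c : ℝ))
        linarith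
      · have := le_abs_self (∑ r, M γ i r * (σ.N γ r c : ℝ))
        linarith
    calc _ ≤ _ := h4
      _ ≤ (q' + 1) * (D * (B : ℝ) ^ σ.a1) + 1 * (B : ℝ) ^ σ.a1 := by linarith
      _ = ((q' + 1) * D + 1) * (B : ℝ) ^ σ.a1 := by ring
  · intro γ hγ v
    show κ / 4 * (B : ℝ) ^ (2 * σ.a1) * ∑ r, v r ^ 2 ≤
      ∑ c, (∑ i, v i * ((⌊∑ r, M γ i r * (σ.N γ r c : ℝ)⌋ : ℤ) : ℝ)) ^ 2
    have h1 := h.nd γ hγ (fun r => ∑ i, v i * M γ i r)
    rw [s5p_frame (M γ) (hM γ) v] at h1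
    have h2 : ∀ c : Fin m, (∑ r, (∑ i, v i * M γ i r) * (σ.N γ r c : ℝ)) ^ 2 / 2 -
        q' * ∑ i, v i ^ 2 ≤ (∑ i, v i * ((⌊∑ r, M γ i r * (σ.N γ r c : ℝ)⌋ : ℤ) : ℝ)) ^ 2 := by
      intro c
      obtain ⟨E, hE⟩ : ∃ E : Fin q' → ℝ, E = fun i => Int.fract (∑ r, M γ i r * (σ.N γ r c : ℝ)) :=
        ⟨_, rfl⟩
      have e1 : ∑ i, v i * ((⌊∑ r, M γ i r * (σ.N γ r c : ℝ)⌋ : ℤ) : ℝ) =
          (∑ r, (∑ i, v i * M γ i r) * (σ.N γ r c : ℝ)) - ∑ i, v i * E i := by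
        have e2 : ∑ r, (∑ i, v i * M γ i r) * (σ.N γ r c : ℝ) =
            ∑ i, v i * (∑ r, M γ i r * (σ.N γ r c : ℝ)) := by
          simp only [Finset.sum_mul, Finset.mul_sum]
          rw [Finset.sum_comm]
          refine Finset.sum_congr rfl fun i _ => Finset.sum_congr rfl fun r _ => ?_
          ring
        rw [e2, ← Finset.sum_sub_distrib]
        refine Finset.sum_congr rfl fun i _ => ?_
        rw [hE]
        show v i * _ = v i * _ - v i * Int.fract _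
        rw [← mul_sub, Int.self_sub_fract]
      have e3 : (∑ i, v i * E i) ^ 2 ≤ q' * ∑ i, v i ^ 2 := by
        calc (∑ i, v i * E i) ^ 2 ≤ (∑ i, v i ^ 2) * ∑ i, E i ^ 2 :=
              Finset.sum_mul_sq_le_sq_mul_sq _ _ _
          _ ≤ (∑ i, v i ^ 2) * ∑ _i : Fin q', (1 : ℝ) := by
              refine mul_le_mul_of_nonneg_left (Finset.sum_le_sum fun i _ => ?_)
                (Finset.sum_nonneg fun i _ => sq_nonneg _)
              rw [hE]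
              have f1 := Int.fract_nonneg (∑ r, M γ i r * (σ.N γ r c : ℝ))
              have f2 := (Int.fract_lt_one (∑ r, M γ i r * (σ.N γ r c : ℝ))).le
              exact pow_le_one₀ f1 f2
          _ = q' * ∑ i, v i ^ 2 := by simp [mul_comm]
      rw [e1]
      nlinarith [sq_nonneg ((∑ r, (∑ i, v i * M γ i r) * (σ.N γ r c : ℝ)) - 2 * ∑ i, v i * E i)]
    have h3 := Finset.sum_le_sum (fun c (_ : c ∈ (Finset.univ : Finset (Fin m))) => h2 c)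
    rw [Finset.sum_sub_distrib, ← Finset.sum_div, Finset.sum_const, Finset.card_univ,
      Fintype.card_fin, nsmul_eq_mul] at h3
    have h4 : 0 ≤ ∑ i, v i ^ 2 := Finset.sum_nonneg fun i _ => sq_nonneg _
    have h5 : (m : ℝ) * (q' * ∑ i, v i ^ 2) ≤ κ / 4 * (B : ℝ) ^ (2 * σ.a1) * ∑ i, v i ^ 2 := by
      rw [← mul_assoc]
      exact mul_le_mul_of_nonneg_right hbig h4
    linarith

theorem s5p_Y {m q' B : ℕ} (σ : Sy m (q' + 1))
    (M : ℕ → Matrix (Fin q') (Fin (q' + 1)) ℝ) (γ : ℕ) (z : Fin m → ℤ) (W : ℝ) (i : Fin q')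
    (hW : ∀ c, |(B : ℝ) ^ σ.a3 * (σ.A z c : ℝ) + (σ.t γ : ℝ) * (z c : ℝ)| ≤ W) :
    |((s5p_sys σ M).Y B γ z i : ℝ) - ∑ r, M γ i r * (σ.Y B γ z r : ℝ)| ≤ m * W := by
  have e1 : ((s5p_sys σ M).Y B γ z i : ℝ) = ∑ c, ((⌊∑ r, M γ i r * (σ.N γ r c : ℝ)⌋ : ℤ) : ℝ) *
      ((B : ℝ) ^ σ.a3 * (σ.A z c : ℝ) + (σ.t γ : ℝ) * (z c : ℝ)) := by
    show ((∑ c, ⌊∑ r, M γ i r * (σ.N γ r c : ℝ)⌋ * ((B : ℤ) ^ σ.a3 * σ.A z c + σ.t γ * z c) : ℤ) : ℝ)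
      = _
    push_cast
    rfl
  have e2 : ∑ r, M γ i r * (σ.Y B γ z r : ℝ) = ∑ c, (∑ r, M γ i r * (σ.N γ r c : ℝ)) *
      ((B : ℝ) ^ σ.a3 * (σ.A z c : ℝ) + (σ.t γ : ℝ) * (z c : ℝ)) := by
    have e3 : ∀ r, (σ.Y B γ z r : ℝ) = ∑ c, (σ.N γ r c : ℝ) *
      ((B : ℝ) ^ σ.a3 * (σ.A z c : ℝ) + (σ.t γ : ℝ) * (z c : ℝ)) := by
      intro r
      show ((∑ c, σ.N γ r c * ((B : ℤ) ^ σ.a3 * σ.A z c + σ.t γ * z c) : ℤ) : ℝ) = _
      push_cast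
      rfl
    simp only [e3, Finset.mul_sum, Finset.sum_mul]
    rw [Finset.sum_comm]
    refine Finset.sum_congr rfl fun c _ => Finset.sum_congr rfl fun r _ => ?_
    ring
  rw [e1, e2, ← Finset.sum_sub_distrib]
  calc _ ≤ ∑ c : Fin m, |((⌊∑ r, M γ i r * (σ.N γ r c : ℝ)⌋ : ℤ) : ℝ) *
      ((B : ℝ) ^ σ.a3 * (σ.A z c : ℝ) + (σ.t γ : ℝ) * (z c : ℝ)) -
      (∑ r, M γ i r * (σ.N γ r c : ℝ)) *
      ((B : ℝ) ^ σ.a3 * (σ.A z c : ℝ) + (σ.t γ : ℝ) * (z c : ℝ))| := Finset.abs_sum_le_sum_abs _ _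
    _ ≤ ∑ _c : Fin m, W := by
        refine Finset.sum_le_sum fun c _ => ?_
        rw [← sub_mul, abs_mul]
        have h1 : |((⌊∑ r, M γ i r * (σ.N γ r c : ℝ)⌋ : ℤ) : ℝ) -
            ∑ r, M γ i r * (σ.N γ r c : ℝ)| ≤ 1 := by
          have h2 := Int.floor_le (∑ r, M γ i r * (σ.N γ r c : ℝ))
          have h3 := Int.lt_floor_add_one (∑ r, M γ i r * (σ.N γ r c : ℝ))
          rw [abs_le]
          constructor <;> linarith
        calc _ ≤ 1 * W := mul_le_mul h1 (hW c) (abs_nonneg _) zero_le_one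
          _ = W := one_mul W
    _ = m * W := by simp

/-- upper bound of the entropy -/
theorem s5p_up (hDET : ST_DET) (hGEO : ST_GEO) {m q' B : ℕ} {R κ D C : ℝ} (σ : Sy m q')
    (hB : 2 ≤ B) (hR : 0 ≤ R) (hD : 0 ≤ D) (h : σ.Ok B R κ D C) (γ : ℕ) (hγ : γ ∈ σ.G) (Len : ℕ)
    (hLen : Len ≤ σ.n) :
    σ.h B γ Len ≤ q' * (Len * Real.log B) +
      q' * Real.log (2 * (⌈m * D * (R + 1)⌉₊ : ℝ) + 3) := by
  have hB1 : (1 : ℝ) ≤ (B : ℝ) := by exact_mod_cast (by omega : 1 ≤ B)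
  have hB0 : (0 : ℝ) < (B : ℝ) := by linarith
  have hBz : (0 : ℤ) < (B : ℤ) := by omega
  have h0 : (fun _ => 0 : Fin m → ℤ) ∈ σ.X B := by
    show _ ∈ Fintype.piFinset _
    rw [Fintype.mem_piFinset]
    intro c
    rw [Finset.mem_Ico]
    exact ⟨le_refl _, by exact_mod_cast Nat.pow_pos (by omega)⟩
  have htr : ∀ x ∈ σ.X B, σ.tr B 0 x = fun _ => 0 := by
    intro x hx
    have hx' : x ∈ Fintype.piFinset (fun _ : Fin m => Finset.Ico (0 : ℤ) ((B ^ σ.n : ℕ) : ℤ)) := hx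
    rw [Fintype.mem_piFinset] at hx'
    funext c
    have hc := Finset.mem_Ico.1 (hx' c)
    show x c / (B : ℤ) ^ (σ.n - 0) = 0
    rw [Nat.sub_zero]
    exact Int.ediv_eq_zero_of_lt hc.1 (by exact_mod_cast hc.2)
  have hgeo := (hGEO m q' B R κ D C σ hB hR hD h).1 γ hγ 0 (Nat.zero_le _)
  have hs : (0 : ℤ) < (B : ℤ) ^ σ.e Len := pow_pos hBz _
  have hdet := hDET.2.2 (Fin m → ℤ) Unit q' (⌈m * D * (R + 1)⌉₊ * B ^ Len) (σ.X B) (σ.Y B γ)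
    (fun _ => ()) (fun _ => σ.Y B γ (fun _ => 0)) ((B : ℤ) ^ σ.e Len) hs (by
      intro x hx r
      have h1 := hgeo x hx (fun _ => 0) h0 ((htr x hx).trans (htr _ h0).symm) r
      have h2 : (B : ℝ) ^ σ.e 0 = (B : ℝ) ^ Len * (B : ℝ) ^ σ.e Len := by
        rw [← pow_add]
        congr 1
        unfold Sy.e
        omega
      have h3 : m * D * (R + 1) ≤ (⌈m * D * (R + 1)⌉₊ : ℝ) := Nat.le_ceil _
      have h4 : |(σ.Y B γ x r : ℝ) - (σ.Y B γ (fun _ => 0) r : ℝ)| ≤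
          (⌈m * D * (R + 1)⌉₊ : ℝ) * (B : ℝ) ^ Len * (B : ℝ) ^ σ.e Len := by
        refine h1.trans ?_
        rw [h2, ← mul_assoc]
        gcongr
      have h5 : ((|σ.Y B γ x r - σ.Y B γ (fun _ => 0) r| : ℤ) : ℝ) ≤
          (((⌈m * D * (R + 1)⌉₊ * B ^ Len : ℕ) : ℤ) * (B : ℤ) ^ σ.e Len : ℤ) := by
        push_cast
        exact h4
      exact_mod_cast h5)
  rw [s5p_unit] at hdet
  have hdet' : σ.h B γ Len ≤ q' * Real.log (2 * ((⌈m * D * (R + 1)⌉₊ * B ^ Len : ℕ) : ℝ) + 3) := hdet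
  refine hdet'.trans ?_
  rw [← mul_add]
  refine mul_le_mul_of_nonneg_left ?_ (Nat.cast_nonneg _)
  have hBL : (1 : ℝ) ≤ (B : ℝ) ^ Len := one_le_pow₀ hB1
  have hK : (0 : ℝ) ≤ (⌈m * D * (R + 1)⌉₊ : ℝ) := Nat.cast_nonneg _
  calc Real.log (2 * ((⌈m * D * (R + 1)⌉₊ * B ^ Len : ℕ) : ℝ) + 3)
      ≤ Real.log ((B : ℝ) ^ Len * (2 * (⌈m * D * (R + 1)⌉₊ : ℝ) + 3)) := by
        apply Real.log_le_log
        · push_cast
          positivity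
        · push_cast
          nlinarith
    _ = Len * Real.log B + Real.log (2 * (⌈m * D * (R + 1)⌉₊ : ℝ) + 3) := by
        rw [Real.log_mul (by positivity) (by positivity), Real.log_pow]

/-- comparison of the positions of the magnified system and of the representative -/
theorem s5p_err (hGEO : ST_GEO) (hZO : ST_ZO) {m q' B : ℕ} {R κ D C : ℝ} (σ : Sy m (q' + 1))
    (Q i l3 l1 L1 : ℕ) (rep : ℕ → ℕ) (hB : 2 ≤ B) (hR : 0 ≤ R) (hD : 0 ≤ D) (h : σ.Ok B R κ D C)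
    (hrep : σ.Rep B Q rep) (hi : i ≤ l3) (h31 : l3 ≤ l1) (h1n : l1 ≤ σ.n) (hQ : Q ≤ σ.n)
    (hQ1 : l1 + L1 ≤ i + Q) (hM1 : (m : ℝ) * (R + 1 + D) ≤ (B : ℝ) ^ L1) (x0 : Fin m → ℤ)
    (hx0 : x0 ∈ σ.X B) (γ : ℕ) (hγ : γ ∈ σ.G) :
    ∃ w : Fin (q' + 1) → ℤ, ∀ z ∈ (σ.zo B l3 (σ.tr B l3 x0)).X B, ∀ r,
      |(σ.zo B l3 (σ.tr B l3 x0)).Y B γ z r -
        σ.yc B i (rep γ) (fun c => (B : ℤ) ^ (σ.n - l3) * σ.tr B l3 x0 c + z c) r - w r| ≤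
        (B : ℤ) ^ σ.e l1 := by
  have hB1 : (1 : ℝ) ≤ (B : ℝ) := by exact_mod_cast (by omega : 1 ≤ B)
  have hB0 : (0 : ℝ) < (B : ℝ) := by linarith
  obtain ⟨T, hT⟩ : ∃ T, T = σ.tr B l3 x0 := ⟨_, rfl⟩
  rw [← hT]
  obtain ⟨g1, g2, g3, g4⟩ := hGEO m (q' + 1) B R κ D C σ hB hR hD h
  have hTg : T ∈ gr m (B ^ l3) := by
    show T ∈ Fintype.piFinset _
    rw [Fintype.mem_piFinset]
    intro c
    have := (g3 l3 (h31.trans h1n) x0 hx0).2.2.1 c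
    rw [← hT] at this
    rw [Finset.mem_Ico]
    exact ⟨this.1, by exact_mod_cast this.2⟩
  obtain ⟨o1, o2, o3, o4⟩ := hZO m (q' + 1) B R κ D C σ hB h l3 (h31.trans h1n) T hTg
  have hz0 : (fun _ => 0 : Fin m → ℤ) ∈ (σ.zo B l3 T).X B := by
    show _ ∈ Fintype.piFinset _
    rw [Fintype.mem_piFinset]
    intro c
    rw [Finset.mem_Ico]
    exact ⟨le_refl _, by exact_mod_cast Nat.pow_pos (by omega)⟩
  have hφ : ∀ z ∈ (σ.zo B l3 T).X B, (fun c => (B : ℤ) ^ (σ.n - l3) * T c + z c) ∈ σ.X B ∧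
      σ.tr B l3 (fun c => (B : ℤ) ^ (σ.n - l3) * T c + z c) = T := by
    intro z hz
    have := o3.1 (Finset.mem_coe.2 hz)
    have h1 := Finset.mem_coe.1 this
    exact Finset.mem_filter.1 h1
  have hφ0 := hφ _ hz0
  have e0 : (fun c => (B : ℤ) ^ (σ.n - l3) * T c + (0 : ℤ)) = fun c => (B : ℤ) ^ (σ.n - l3) * T c := by
    funext c
    ring
  simp only [e0] at hφ0
  obtain ⟨p0, hp0⟩ : ∃ p0 : Fin m → ℤ, p0 = fun c => (B : ℤ) ^ (σ.n - l3) * T c := ⟨_, rfl⟩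
  rw [← hp0] at hφ0
  refine ⟨fun r => σ.Y B (rep γ) (σ.co B i p0) r - σ.Y B (rep γ) p0 r, ?_⟩
  intro z hz r
  obtain ⟨pz, hpz⟩ : ∃ pz : Fin m → ℤ, pz = fun c => (B : ℤ) ^ (σ.n - l3) * T c + z c := ⟨_, rfl⟩
  have hφz := hφ z hz
  rw [← hpz] at hφz ⊢
  have hco : σ.co B i pz = σ.co B i p0 := by
    have h1 : σ.tr B i pz = σ.tr B i p0 := by
      rw [g4 i l3 hi (h31.trans h1n) pz, g4 i l3 hi (h31.trans h1n) p0, hφz.2, hφ0.2]
    show (fun c => (B : ℤ) ^ (σ.n - i) * σ.tr B i pz c) = fun c => (B : ℤ) ^ (σ.n - i) * σ.tr B i p0 c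
    rw [h1]
  have hY : (σ.zo B l3 T).Y B γ z r = σ.Y B γ pz r - σ.Y B γ p0 r := by
    rw [o4 γ z hz r, ← hpz, ← hp0]
  have hyc : σ.yc B i (rep γ) pz r = σ.Y B (rep γ) pz r - σ.Y B (rep γ) (σ.co B i pz) r := rfl
  rw [hY, hyc, hco]
  have h2 := g2 Q rep hQ hrep γ hγ l3 (h31.trans h1n) pz hφz.1 p0 hφ0.1
    (hφz.2.trans hφ0.2.symm) r
  have h3 : m * (R + 1 + D) * (B : ℝ) ^ σ.e l3 / (B : ℝ) ^ Q ≤ (B : ℝ) ^ σ.e l1 := by
    rw [div_le_iff₀ (by positivity)]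
    calc m * (R + 1 + D) * (B : ℝ) ^ σ.e l3 ≤ (B : ℝ) ^ L1 * (B : ℝ) ^ σ.e l3 := by gcongr
      _ = (B : ℝ) ^ (L1 + σ.e l3) := (pow_add _ _ _).symm
      _ ≤ (B : ℝ) ^ (σ.e l1 + Q) := by
          apply pow_le_pow_right₀ hB1
          unfold Sy.e
          omega
      _ = (B : ℝ) ^ σ.e l1 * (B : ℝ) ^ Q := pow_add _ _ _
  have h4 : ((|σ.Y B γ pz r - σ.Y B γ p0 r - (σ.Y B (rep γ) pz r - σ.Y B (rep γ) (σ.co B i p0) r) -
      (σ.Y B (rep γ) (σ.co B i p0) r - σ.Y B (rep γ) p0 r)| : ℤ) : ℝ) ≤ (((B : ℤ) ^ σ.e l1 : ℤ) : ℝ) := by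
    push_cast
    refine le_trans (le_of_eq ?_) (h2.trans h3)
    congr 1
    ring
  exact_mod_cast h4

/-- (A) cells of the same rank -/
theorem s5p_A (hDET : ST_DET) {m q : ℕ} (X : Finset (Fin m → ℤ))
    (Y y : (Fin m → ℤ) → Fin q → ℤ) (w S : Fin q → ℤ) (s : ℤ) (hs : 0 < s)
    (hw : ∀ z ∈ X, ∀ r, |Y z r - y z r - w r| ≤ s) :
    ent X (fun z r => Y z r / s) ≤ ent X (fun z r => (y z r - S r) / s) + q * Real.log 5 := by
  have h := hDET.1 (Fin m → ℤ) Unit q 1 X Y (fun z r => y z r - S r) (fun _ => ())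
    (fun _ r => w r + S r) s hs (by
      intro z hz r
      have h1 := hw z hz r
      have h2 : Y z r - (y z r - S r) - (w r + S r) = Y z r - y z r - w r := by ring
      rw [h2]
      simpa using h1)
  refine s5p_le X _ _ _ (h.trans (le_of_eq ?_))
  norm_num

/-- (B) cells of the projections -/
theorem s5p_B (hDET : ST_DET) {m q' : ℕ} (X : Finset (Fin m → ℤ)) (Y' : (Fin m → ℤ) → Fin q' → ℤ)
    (Y y : (Fin m → ℤ) → Fin (q' + 1) → ℤ) (w : Fin (q' + 1) → ℤ) (s : ℤ) (hs : 0 < s) (K : ℕ)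
    (M : Matrix (Fin q') (Fin (q' + 1)) ℝ) (hM : Frame M)
    (hw : ∀ z ∈ X, ∀ r, |Y z r - y z r - w r| ≤ s)
    (hY : ∀ z ∈ X, ∀ i, |(Y' z i : ℝ) - ∑ r, M i r * (Y z r : ℝ)| ≤ K * (s : ℝ)) :
    ent X (fun z i => Y' z i / s) ≤
      ent X (qf M y s) + q' * Real.log (2 * ((K + (q' + 1) : ℕ) : ℝ) + 3) := by
  have hs' : (0 : ℝ) < (s : ℝ) := by exact_mod_cast hs
  have h := hDET.2.1 (Fin m → ℤ) Unit q' (K + (q' + 1)) X (fun z i => (Y' z i : ℝ) / (s : ℝ))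
    (fun z i => (∑ r, M i r * (y z r : ℝ)) / (s : ℝ)) (fun _ => ())
    (fun _ i => (∑ r, M i r * (w r : ℝ)) / (s : ℝ)) (by
      intro z hz i
      have h1 : (Y' z i : ℝ) / (s : ℝ) - (∑ r, M i r * (y z r : ℝ)) / (s : ℝ) -
          (∑ r, M i r * (w r : ℝ)) / (s : ℝ) =
          (((Y' z i : ℝ) - ∑ r, M i r * (Y z r : ℝ)) +
            ∑ r, M i r * ((Y z r : ℝ) - (y z r : ℝ) - (w r : ℝ))) / (s : ℝ) := by
        simp only [mul_sub, Finset.sum_sub_distrib]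
        ring
      rw [h1, abs_div, abs_of_pos hs', div_le_iff₀ hs']
      have h2 : |∑ r, M i r * ((Y z r : ℝ) - (y z r : ℝ) - (w r : ℝ))| ≤ (q' + 1) * (s : ℝ) := by
        calc _ ≤ ∑ r, |M i r * ((Y z r : ℝ) - (y z r : ℝ) - (w r : ℝ))| :=
              Finset.abs_sum_le_sum_abs _ _
          _ ≤ ∑ _r : Fin (q' + 1), (s : ℝ) := by
              refine Finset.sum_le_sum fun r _ => ?_
              rw [abs_mul]
              have h3 := st_FRM.2.1 _ _ M hM i r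
              have h4 : |(Y z r : ℝ) - (y z r : ℝ) - (w r : ℝ)| ≤ (s : ℝ) := by
                exact_mod_cast hw z hz r
              calc _ ≤ 1 * (s : ℝ) := mul_le_mul h3 h4 (abs_nonneg _) zero_le_one
                _ = _ := one_mul _
          _ = (q' + 1) * (s : ℝ) := by simp
      calc _ ≤ _ := abs_add_le _ _
        _ ≤ K * (s : ℝ) + (q' + 1) * (s : ℝ) := add_le_add (hY z hz i) h2
        _ = ((K + (q' + 1) : ℕ) : ℝ) * (s : ℝ) := by push_cast; ring)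
  have e1 : (fun (z : Fin m → ℤ) (i : Fin q') => Y' z i / s) =
      fun z => fl (fun i => (Y' z i : ℝ) / (s : ℝ)) := by
    funext z i
    exact (s5p_floor (Y' z i) s hs).symm
  rw [e1]
  exact s5p_le X _ (qf M y s) _ h

theorem s5p_W {m q B : ℕ} {R κ D C : ℝ} (σ : Sy m q) (hB : 2 ≤ B) (h : σ.Ok B R κ D C)
    (hA0 : ∀ c, σ.A (fun _ => 0) c = 0) (γ : ℕ) (hγ : γ ∈ σ.G) (z : Fin m → ℤ) (hz : z ∈ σ.X B)
    (c : Fin m) : |(B : ℝ) ^ σ.a3 * (σ.A z c : ℝ) + (σ.t γ : ℝ) * (z c : ℝ)| ≤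
      (R + 1) * (B : ℝ) ^ (σ.a3 + σ.n) := by
  have hB1 : (1 : ℝ) ≤ (B : ℝ) := by exact_mod_cast (by omega : 1 ≤ B)
  have hB0 : (0 : ℝ) < (B : ℝ) := by linarith
  have h0 : (fun _ => 0 : Fin m → ℤ) ∈ σ.X B := by
    show _ ∈ Fintype.piFinset _
    rw [Fintype.mem_piFinset]
    intro c
    rw [Finset.mem_Ico]
    exact ⟨le_refl _, by exact_mod_cast Nat.pow_pos (by omega)⟩
  have hmem : ∀ x ∈ σ.X B, ∀ c, 0 ≤ x c ∧ x c < (B : ℤ) ^ σ.n := by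
    intro x hx c
    have hx' : x ∈ Fintype.piFinset (fun _ : Fin m => Finset.Ico (0 : ℤ) ((B ^ σ.n : ℕ) : ℤ)) := hx
    rw [Fintype.mem_piFinset] at hx'
    have hc := Finset.mem_Ico.1 (hx' c)
    exact ⟨hc.1, by exact_mod_cast hc.2⟩
  have htr : ∀ x ∈ σ.X B, σ.tr B 0 x = fun _ => 0 := by
    intro x hx
    funext c
    have hc := hmem x hx c
    show x c / (B : ℤ) ^ (σ.n - 0) = 0
    rw [Nat.sub_zero]
    exact Int.ediv_eq_zero_of_lt hc.1 hc.2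
  have h1 := h.st 0 (Nat.zero_le _) z hz (fun _ => 0) h0 ((htr z hz).trans (htr _ h0).symm) c
  rw [hA0 c, Nat.sub_zero, Int.cast_zero, sub_zero] at h1
  obtain ⟨z0, z1⟩ := hmem z hz c
  obtain ⟨t0, t1⟩ := h.tb γ hγ
  have z0' : (0 : ℝ) ≤ (z c : ℝ) := by exact_mod_cast z0
  have z1' : (z c : ℝ) ≤ (B : ℝ) ^ σ.n := by exact_mod_cast z1.le
  have t0' : (0 : ℝ) ≤ (σ.t γ : ℝ) := by exact_mod_cast t0
  have t1' : (σ.t γ : ℝ) ≤ (B : ℝ) ^ σ.a3 := by exact_mod_cast t1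
  calc _ ≤ |(B : ℝ) ^ σ.a3 * (σ.A z c : ℝ)| + |(σ.t γ : ℝ) * (z c : ℝ)| := abs_add_le _ _
    _ ≤ (B : ℝ) ^ σ.a3 * (R * (B : ℝ) ^ σ.n) + (B : ℝ) ^ σ.a3 * (B : ℝ) ^ σ.n := by
        refine add_le_add ?_ ?_
        · rw [abs_mul, abs_of_pos (pow_pos hB0 _)]
          exact mul_le_mul_of_nonneg_left h1 (pow_pos hB0 _).le
        · rw [abs_mul, abs_of_nonneg t0', abs_of_nonneg z0']
          exact mul_le_mul t1' z1' z0' (pow_pos hB0 _).le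
    _ = (R + 1) * (B : ℝ) ^ (σ.a3 + σ.n) := by rw [pow_add]; ring

theorem st_S5P (hGEO : ST_GEO) (hZO : ST_ZO) (hDET : ST_DET) : ST_S5P := by
  intro m q' B R κ D C e ε hEQ hLOW hB hR hκ hD hC he he1 hε
  classical
  have hB1 : (1 : ℝ) ≤ (B : ℝ) := by exact_mod_cast (by omega : 1 ≤ B)
  have hB0 : (0 : ℝ) < (B : ℝ) := by linarith
  have hL : 0 < Real.log B := Real.log_pos (by exact_mod_cast (by omega : 1 < B))
  have hq : (0 : ℝ) ≤ (q' : ℝ) := Nat.cast_nonneg _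
  obtain ⟨ε1, hε1⟩ : ∃ ε1 : ℝ, ε1 = ε / (2 * (q' + 3)) := ⟨_, rfl⟩
  have hε1p : 0 < ε1 := by rw [hε1]; positivity
  obtain ⟨n0, hn0⟩ := hEQ B R (κ / 4) ((q' + 1) * D + 1) C ε1 hB hR (by positivity) (by positivity)
    hC hε1p
  obtain ⟨L0, hL0⟩ := hLOW C ε1 hC hε1p
  obtain ⟨cA, hcA⟩ : ∃ c : ℝ, c = ((q' + 1 : ℕ) : ℝ) * Real.log 5 := ⟨_, rfl⟩
  obtain ⟨KB, hKB⟩ : ∃ K : ℕ, K = ⌈(m : ℝ) * (R + 1)⌉₊ := ⟨_, rfl⟩
  obtain ⟨cB, hcB⟩ : ∃ c : ℝ, c = q' * Real.log (2 * ((KB + (q' + 1) : ℕ) : ℝ) + 3) := ⟨_, rfl⟩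
  obtain ⟨cC, hcC⟩ : ∃ c : ℝ, c =
    q' * Real.log (2 * (⌈(m : ℝ) * ((q' + 1) * D + 1) * (R + 1)⌉₊ : ℝ) + 3) := ⟨_, rfl⟩
  have hcA0 : 0 ≤ cA := by
    rw [hcA]
    exact mul_nonneg (Nat.cast_nonneg _) (Real.log_nonneg (by norm_num))
  have hcB0 : 0 ≤ cB := by
    rw [hcB]
    refine mul_nonneg hq (Real.log_nonneg ?_)
    have : (0 : ℝ) ≤ ((KB + (q' + 1) : ℕ) : ℝ) := Nat.cast_nonneg _
    linarith
  have hcC0 : 0 ≤ cC := by
    rw [hcC]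
    refine mul_nonneg hq (Real.log_nonneg ?_)
    have : (0 : ℝ) ≤ (⌈(m : ℝ) * ((q' + 1) * D + 1) * (R + 1)⌉₊ : ℝ) := Nat.cast_nonneg _
    linarith
  obtain ⟨Lx, hLx⟩ : ∃ Lx, Lx = max (max n0 L0) (max ⌈2 * (cA + cB + cC) / (ε * Real.log B)⌉₊
    (max ⌈(m : ℝ) * (R + 1 + D)⌉₊ ⌈4 * ((m : ℝ) * q') / κ⌉₊)) := ⟨_, rfl⟩
  have x1 : n0 ≤ Lx := by rw [hLx]; exact (le_max_left _ _).trans (le_max_left _ _)
  have x2 : L0 ≤ Lx := by rw [hLx]; exact (le_max_right _ _).trans (le_max_left _ _)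
  have x3 : ⌈2 * (cA + cB + cC) / (ε * Real.log B)⌉₊ ≤ Lx := by
    rw [hLx]; exact (le_max_left _ _).trans (le_max_right _ _)
  have x4 : ⌈(m : ℝ) * (R + 1 + D)⌉₊ ≤ Lx := by
    rw [hLx]
    exact ((le_max_left _ _).trans (le_max_right _ _)).trans (le_max_right _ _)
  have x5 : ⌈4 * ((m : ℝ) * q') / κ⌉₊ ≤ Lx := by
    rw [hLx]
    exact ((le_max_right _ _).trans (le_max_right _ _)).trans (le_max_right _ _)
  have hpw : (Lx : ℝ) ≤ (B : ℝ) ^ Lx := by exact_mod_cast (Nat.lt_pow_self (by omega : 1 < B)).le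
  have x3' : 2 * (cA + cB + cC) ≤ Lx * (ε * Real.log B) := by
    rw [← div_le_iff₀ (mul_pos hε hL)]
    exact (Nat.le_ceil _).trans (by exact_mod_cast x3)
  have x4' : (m : ℝ) * (R + 1 + D) ≤ (B : ℝ) ^ Lx :=
    ((Nat.le_ceil _).trans (by exact_mod_cast x4)).trans hpw
  have x5' : 4 * ((m : ℝ) * q') ≤ (B : ℝ) ^ Lx * κ := by
    rw [← div_le_iff₀ hκ]
    exact ((Nat.le_ceil _).trans (by exact_mod_cast x5)).trans hpw
  refine ⟨Lx, ?_⟩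
  intro σ Q i l3 l1 rep h hrep hi h31 h1n hQ hQ1 x0 hx0 sat M S hM
  have h31' : l3 ≤ l1 := by omega
  obtain ⟨Len, hLen⟩ : ∃ Len, Len = l1 - l3 := ⟨_, rfl⟩
  have hLenr : (l1 : ℝ) - l3 = (Len : ℝ) := by
    rw [hLen, Nat.cast_sub h31']
  have hLx' : Lx ≤ Len := by omega
  have hz0n : ∀ (k : ℕ), (fun _ => 0 : Fin m → ℤ) ∈ gr m (B ^ k) := by
    intro k
    show _ ∈ Fintype.piFinset _
    rw [Fintype.mem_piFinset]
    intro c
    rw [Finset.mem_Ico]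
    exact ⟨le_refl _, by exact_mod_cast Nat.pow_pos (by omega)⟩
  obtain ⟨g1, g2, g3, g4⟩ := hGEO m (q' + 1) B R κ D C σ hB hR hD h
  have hTg : σ.tr B l3 x0 ∈ gr m (B ^ l3) := by
    show _ ∈ Fintype.piFinset _
    rw [Fintype.mem_piFinset]
    intro c
    have := (g3 l3 (h31'.trans h1n) x0 hx0).2.2.1 c
    rw [Finset.mem_Ico]
    exact ⟨this.1, by exact_mod_cast this.2⟩
  obtain ⟨o1, o2, o3, o4⟩ := hZO m (q' + 1) B R κ D C σ hB h l3 (h31'.trans h1n) _ hTg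
  have herr := s5p_err hGEO hZO σ Q i l3 l1 Lx rep hB hR hD h hrep hi h31' h1n hQ hQ1 x4' x0 hx0
  obtain ⟨σ1, hσ1⟩ : ∃ σ1, σ1 = σ.zo B l3 (σ.tr B l3 x0) := ⟨_, rfl⟩
  have f1 : σ1.n = σ.n - l3 := by rw [hσ1]; rfl
  have f2 : σ1.a1 = σ.a1 := by rw [hσ1]; rfl
  have f3 : σ1.a3 = σ.a3 := by rw [hσ1]; rfl
  have f4 : σ1.G = σ.G := by rw [hσ1]; rfl
  have f5 : σ1.t = σ.t := by rw [hσ1]; rfl
  have f6 : ∀ c, σ1.A (fun _ => 0) c = 0 := by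
    intro c
    rw [hσ1]
    show σ.A _ c - σ.A _ c = 0
    simp
  rw [← hσ1] at o1 o2 o3 herr
  have hOk2 := s5p_ok σ1 M hM hB o1 (by
    rw [f2]
    have hn1 := h.n1
    have h1 : (B : ℝ) ^ Lx ≤ (B : ℝ) ^ (2 * σ.a1) := pow_le_pow_right₀ hB1 (by omega)
    have h2 : (B : ℝ) ^ Lx * κ ≤ (B : ℝ) ^ (2 * σ.a1) * κ := mul_le_mul_of_nonneg_right h1 hκ.le
    linarith)
  have hLen1 : Len ≤ σ1.n := by rw [f1]; omega
  have heL : σ1.e Len = σ.e l1 := by rw [o2 Len]; congr 1; omega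
  have hsum := hn0 (s5p_sys σ1 M) hOk2 Len (x1.trans hLx') hLen1
  have hbad := hL0 σ1 o1 Len (x2.trans hLx') hLen1
  have hsG : (s5p_sys σ1 M).G = σ.G := f4
  rw [hsG] at hsum
  rw [f4] at hbad
  obtain ⟨Λ, hΛ⟩ : ∃ Λ, Λ = (Len : ℝ) * Real.log B := ⟨_, rfl⟩
  have hΛ0 : 0 ≤ Λ := by rw [hΛ]; positivity
  have hsum' : ((q' : ℝ) - ε1) * Λ * σ.G.card ≤ ∑ γ ∈ σ.G, (s5p_sys σ1 M).h B γ Len := by
    refine le_trans (le_of_eq ?_) hsum
    rw [hΛ]; ring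
  have hs : (0 : ℤ) < (B : ℤ) ^ σ.e l1 := pow_pos (by omega) _
  have hmain := s5p_sum σ.G sat (fun γ => σ1.h B γ Len < (e - ε1) * Len * Real.log B)
    (fun γ => if sat γ then ent (σ.Zt B l3 (σ.tr B l3 x0))
        (qf (M γ) (σ.yc B i (rep γ)) ((B : ℤ) ^ σ.e l1)) + ((l1 : ℝ) - l3) * Real.log B
      else ent (σ.Zt B l3 (σ.tr B l3 x0)) (pf (σ.yc B i (rep γ)) ((B : ℤ) ^ σ.e l1) (S γ)))
    (fun γ => (s5p_sys σ1 M).h B γ Len) q' e ε1 Λ (cA + cB + cC) hΛ0 he hsum' hbad (by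
      intro γ hγ
      have hγ1 : γ ∈ σ1.G := by rw [f4]; exact hγ
      obtain ⟨w, hw⟩ := herr γ hγ
      have e1 : σ1.h B γ Len = ent (σ1.X B) (fun z r => σ1.Y B γ z r / (B : ℤ) ^ σ.e l1) := by
        unfold Sy.h
        rw [heL]
        rfl
      have e2 : (s5p_sys σ1 M).h B γ Len =
          ent (σ1.X B) (fun z i => (s5p_sys σ1 M).Y B γ z i / (B : ℤ) ^ σ.e l1) := by
        have : (s5p_sys σ1 M).e Len = σ.e l1 := heL
        unfold Sy.h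
        rw [this]
        rfl
      have hA := s5p_A hDET (σ1.X B) (σ1.Y B γ) (fun z => σ.yc B i (rep γ)
        (fun c => (B : ℤ) ^ (σ.n - l3) * σ.tr B l3 x0 c + z c)) w (S γ) _ hs hw
      have hA2 : ent (σ1.X B) (fun z r => (σ.yc B i (rep γ)
          (fun c => (B : ℤ) ^ (σ.n - l3) * σ.tr B l3 x0 c + z c) r - S γ r) / (B : ℤ) ^ σ.e l1) =
          ent (σ.Zt B l3 (σ.tr B l3 x0)) (pf (σ.yc B i (rep γ)) ((B : ℤ) ^ σ.e l1) (S γ)) :=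
        st_E5.2.2.2.2 _ _ _ (σ1.X B) (σ.Zt B l3 (σ.tr B l3 x0)) _
          (pf (σ.yc B i (rep γ)) ((B : ℤ) ^ σ.e l1) (S γ)) o3
      rw [hA2, ← e1, ← hcA] at hA
      have hBB := s5p_B hDET (σ1.X B) ((s5p_sys σ1 M).Y B γ) (σ1.Y B γ)
        (fun z => σ.yc B i (rep γ)
        (fun c => (B : ℤ) ^ (σ.n - l3) * σ.tr B l3 x0 c + z c)) w _ hs KB (M γ) (hM γ) hw (by
          intro z hz j
          refine (s5p_Y σ1 M γ z ((R + 1) * (B : ℝ) ^ (σ1.a3 + σ1.n)) j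
            (fun c => s5p_W σ1 hB o1 f6 γ hγ1 z hz c)).trans ?_
          have h1 : (m : ℝ) * (R + 1) ≤ (KB : ℝ) := by rw [hKB]; exact Nat.le_ceil _
          have h2 : (B : ℝ) ^ (σ1.a3 + σ1.n) ≤ (B : ℝ) ^ σ.e l1 := by
            apply pow_le_pow_right₀ hB1
            rw [f1, f3]
            have hn1 := h.n1
            unfold Sy.e
            omega
          calc (m : ℝ) * ((R + 1) * (B : ℝ) ^ (σ1.a3 + σ1.n)) =
                (m : ℝ) * (R + 1) * (B : ℝ) ^ (σ1.a3 + σ1.n) := by ring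
            _ ≤ (KB : ℝ) * (B : ℝ) ^ σ.e l1 :=
                mul_le_mul h1 h2 (pow_pos hB0 _).le (Nat.cast_nonneg _)
            _ = (KB : ℝ) * (((B : ℤ) ^ σ.e l1 : ℤ) : ℝ) := by push_cast; rfl)
      have hB2 : ent (σ1.X B) (qf (M γ) (fun z => σ.yc B i (rep γ)
          (fun c => (B : ℤ) ^ (σ.n - l3) * σ.tr B l3 x0 c + z c)) ((B : ℤ) ^ σ.e l1)) =
          ent (σ.Zt B l3 (σ.tr B l3 x0)) (qf (M γ) (σ.yc B i (rep γ)) ((B : ℤ) ^ σ.e l1)) :=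
        st_E5.2.2.2.2 _ _ _ (σ1.X B) (σ.Zt B l3 (σ.tr B l3 x0)) _
          (qf (M γ) (σ.yc B i (rep γ)) ((B : ℤ) ^ σ.e l1)) o3
      rw [hB2, ← e2, ← hcB] at hBB
      have hCC := s5p_up hDET hGEO (s5p_sys σ1 M) hB hR (by positivity) hOk2 γ hγ1 Len hLen1
      rw [← hΛ, ← hcC] at hCC
      have hnn := ent_nonneg (σ.Zt B l3 (σ.tr B l3 x0))
        (pf (σ.yc B i (rep γ)) ((B : ℤ) ^ σ.e l1) (S γ))
      have h6 : 0 ≤ ε1 * Λ := mul_nonneg hε1p.le hΛ0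
      have h7 : 0 ≤ e * Λ := mul_nonneg he hΛ0
      have h8 : (e - ε1) * Len * Real.log B = e * Λ - ε1 * Λ := by rw [hΛ]; ring
      have h9 : ((l1 : ℝ) - l3) * Real.log B = Λ := by rw [hLenr, hΛ]
      show (s5p_sys σ1 M).h B γ Len - q' * Λ + (if sat γ then ((q' : ℝ) + 1) * Λ else e * Λ) -
        ε1 * Λ - (cA + cB + cC) - (if σ1.h B γ Len < (e - ε1) * Len * Real.log B then e * Λ else 0) ≤
        if sat γ then ent (σ.Zt B l3 (σ.tr B l3 x0))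
          (qf (M γ) (σ.yc B i (rep γ)) ((B : ℤ) ^ σ.e l1)) + ((l1 : ℝ) - l3) * Real.log B
        else ent (σ.Zt B l3 (σ.tr B l3 x0)) (pf (σ.yc B i (rep γ)) ((B : ℤ) ^ σ.e l1) (S γ))
      rw [h8, h9]
      by_cases hsat : sat γ
      · rw [if_pos hsat, if_pos hsat]
        by_cases hbd : σ1.h B γ Len < e * Λ - ε1 * Λ
        · rw [if_pos hbd]
          linarith
        · rw [if_neg hbd]
          linarith
      · rw [if_neg hsat, if_neg hsat]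
        by_cases hbd : σ1.h B γ Len < e * Λ - ε1 * Λ
        · rw [if_pos hbd]
          linarith
        · rw [if_neg hbd]
          have hbd' := not_lt.1 hbd
          linarith)
  refine le_trans ?_ hmain
  have hGc : (0 : ℝ) ≤ (σ.G.card : ℝ) := Nat.cast_nonneg _
  have k1 : (2 * ε1 + e * ε1) * Λ ≤ ε / 2 * Λ := by
    refine mul_le_mul_of_nonneg_right ?_ hΛ0
    have : (2 + e) * ε1 ≤ (q' + 3) * ε1 := mul_le_mul_of_nonneg_right (by linarith) hε1p.le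
    have h2 : (q' + 3) * ε1 = ε / 2 := by rw [hε1]; field_simp
    linarith
  have k2 : cA + cB + cC ≤ ε / 2 * Λ := by
    have : (Lx : ℝ) * (ε * Real.log B) ≤ Len * (ε * Real.log B) :=
      mul_le_mul_of_nonneg_right (by exact_mod_cast hLx') (mul_pos hε hL).le
    rw [hΛ]
    linarith
  have k3 := mul_le_mul_of_nonneg_right (add_le_add k1 k2) hGc
  rw [hLenr, ← hΛ]
  nlinarith

end

end Pool.Agent.Helper70.SK
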